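import Pool.Agent.MP_3ee8cb_gt.D8C.Chk

/-! The box test for the profile in dimension eight. -/

namespace Pool.Agent.MP_3ee8cb_gt.D8C

/-- The profile in integers. -/
def fa (v u : ℤ) : ℤ := -(u * (11427840000 + u * (1344000 + 175 * u)) +
  (11427840000 + u * (2688000 + 525 * u)) * (v - u))

/-- The profile in integers. -/
def ff (a : ℤ) : ℤ := fa (6400 - a) (max 0 (min (6400 - a) 3584))

/-- The gain in integers. -/
def gg (a : ℤ) : ℤ := if a ≤ 5540 then -(-(-183 * 6400 ^ 6 + a ^ 2 * (60 * 6400 ^ 4 +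
  a ^ 2 * (3720 * 6400 ^ 2 - 3300 * a ^ 2))) / (2 * 6400 ^ 3)) else 282 * 6400 ^ 3

theorem run1 : chk ff gg 6400 78643200000000 381 200 24 0 1600 (-6400) 6400 = true := by
  decide +kernel

theorem run2 : chk ff gg 6400 78643200000000 381 200 24 1600 3200 (-6400) 6400 = true := by
  decide +kernel

theorem run3 : chk ff gg 6400 78643200000000 381 200 24 3200 4800 (-6400) 6400 = true := by
  decide +kernel

theorem run4 : chk ff gg 6400 78643200000000 381 200 24 4800 6400 (-6400) 6400 = true := by
  decide +kernel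

end Pool.Agent.MP_3ee8cb_gt.D8C
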