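import Mathlib

/-! A box test in integer arithmetic for an inequality in two variables. -/

namespace Pool.Agent.MP_3ee8cb_gt.D8C

open Real

theorem fl (a : ℤ) {b : ℤ} (hb : 0 < b) : ((a / b : ℤ) : ℝ) ≤ a / b := by
  rw [le_div_iff₀ (by exact_mod_cast hb)]
  exact_mod_cast Int.ediv_mul_le a hb.ne'

/-- A lower bound for `Z * log (a / b)`. -/
def ll (Z : ℤ) : ℕ → ℤ → ℤ → ℤ
  | 0, a, b => Z * (a - b) / a
  | n + 1, a, b => if 6 * b ≤ 5 * a then Z * 2 / 11 + ll Z n (5 * a) (6 * b) else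
      if b ≤ a then Z * (2 * (a - b)) / (a + b) else Z * (a - b) / a

theorem lg1 {y : ℝ} (h : 1 ≤ y) : 2 * (y - 1) / (y + 1) ≤ log y := by
  have l := le_log_one_add_of_nonneg (sub_nonneg.2 h)
  rwa [add_sub_cancel, show y - 1 + 2 = y + 1 by ring] at l

theorem ll_le {Z : ℤ} (hZ : 0 < Z) (n : ℕ) : ∀ a b : ℤ, 0 < a → 0 < b →
    (ll Z n a b : ℝ) ≤ Z * log (a / b) := by
  have z : (0 : ℝ) < Z := by exact_mod_cast hZ
  have k : ∀ a b : ℤ, 0 < a → 0 < b → ((Z * (a - b) / a : ℤ) : ℝ) ≤ Z * log (a / b) :=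
    fun a b ha hb => by
    have a0 : (0 : ℝ) < a := by exact_mod_cast ha
    have b0 : (0 : ℝ) < b := by exact_mod_cast hb
    refine (fl _ ha).trans ?_
    have := one_sub_inv_le_log_of_pos (div_pos a0 b0)
    push_cast
    rw [mul_div_assoc]
    refine mul_le_mul_of_nonneg_left (le_trans (le_of_eq ?_) this) z.le
    field_simp
  induction n with
  | zero => exact k
  | succ n ih =>
    intro a b ha hb
    have a0 : (0 : ℝ) < a := by exact_mod_cast ha
    have b0 : (0 : ℝ) < b := by exact_mod_cast hb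
    rw [ll]
    split_ifs with h1 h2
    · have i := ih (5 * a) (6 * b) (by omega) (by omega)
      have f := fl (Z * 2) (b := 11) (by norm_num)
      have l := lg1 (y := 6 / 5) (by norm_num)
      have e : log ((a : ℝ) / b) = log (6 / 5) + log ((5 * a) / (6 * b)) := by
        rw [← log_mul (by norm_num) (by positivity)]
        congr 1
        field_simp
      rw [Int.cast_add, e]
      push_cast at i f
      norm_num at l
      nlinarith
    · refine (fl _ (by omega)).trans ?_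
      have l := lg1 (y := a / b) ((one_le_div b0).2 (by exact_mod_cast h2))
      push_cast
      rw [mul_div_assoc]
      refine mul_le_mul_of_nonneg_left (le_trans (le_of_eq ?_) l) z.le
      field_simp
    · exact k a b ha hb

/-- Bisection. -/
def bis (p : ℤ → Bool) : ℕ → ℤ → ℤ → ℤ
  | 0, lo, _ => lo
  | n + 1, lo, hi => if p ((lo + hi) / 2) then bis p n ((lo + hi) / 2) hi else
      bis p n lo ((lo + hi) / 2)

section

variable (f g : ℤ → ℤ) (N Z ka kb : ℤ)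

/-- The test for one box with given thresholds. -/
def tst (m c u b t : ℤ) (s1 : Bool) : Bool :=
  (s1 && decide (f (b - m) ≤ c)) ||
  (if 0 ≤ m then decide (u ≤ f (b + m) - f (b - m)) else
    s1 && decide (f (t - m) ≤ c) && decide (u ≤ f (t + m) - f (t - m)))

/-- The test for one box with a given bound `b`. -/
def tsb (x0 s1 m u v b : ℤ) : Bool :=
  decide (0 ≤ b) && decide (v ≤ b ^ 2 * N ^ 2) &&
  tst f m (ll Z 9 (ka * (N - s1)) (kb * N) + f x0 - u) u b
    (bis (fun t => decide (f (t - m) ≤ ll Z 9 (ka * (N - s1)) (kb * N) + f x0 - u)) 9 (-N) b)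
    (decide (s1 < N))

/-- A lower bound for the square. -/
def sq2 (s0 s1 : ℤ) : ℤ := if 0 ≤ s0 then s0 ^ 2 else if s1 ≤ 0 then s1 ^ 2 else 0

/-- The test for one box. -/
def leaf (x0 x1 s0 s1 : ℤ) : Bool :=
  tsb f N Z ka kb x0 s1 (min (s0 * x1) (s0 * x0) / N) (g x1)
    ((N ^ 2 - sq2 s0 s1) * (N ^ 2 - x0 ^ 2))
    (-bis (fun t => decide ((N ^ 2 - sq2 s0 s1) * (N ^ 2 - x0 ^ 2) ≤ t ^ 2 * N ^ 2)) 11 (-N) 0)

/-- The test with subdivision. -/
def chk : ℕ → ℤ → ℤ → ℤ → ℤ → Bool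
  | 0, _, _, _, _ => false
  | n + 1, x0, x1, s0, s1 => leaf f g N Z ka kb x0 x1 s0 s1 ||
      if s1 - s0 ≤ 2 * (x1 - x0) then
        chk n x0 ((x0 + x1) / 2) s0 s1 && chk n ((x0 + x1) / 2) x1 s0 s1
      else chk n x0 x1 s0 ((s0 + s1) / 2) && chk n x0 x1 ((s0 + s1) / 2) s1

end

/-- The inequality at one point. -/
def Pt (φ q : ℝ → ℝ) (K x S : ℝ) : Prop := ∀ B W, B ^ 2 ≤ (1 - S ^ 2) * (1 - x ^ 2) →
  φ (B + S * x) ≤ W → (S < 1 → log (K * (1 - S)) + φ x ≤ W) → q x ≤ W - φ (B - S * x)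

/-- The data of the test. -/
structure Dat (φ q : ℝ → ℝ) (K : ℝ) (f g : ℤ → ℤ) (N Z ka kb : ℤ) : Prop where
  n0 : 0 < N
  z0 : 0 < Z
  a0 : 0 < ka
  b0 : 0 < kb
  hK : K = ka / kb
  mono : Monotone φ
  conc : ∀ a b c, a ≤ b → 0 ≤ c → φ (b + c) - φ b ≤ φ (a + c) - φ a
  hf : ∀ a : ℤ, (f a : ℝ) = Z * φ (a / N)
  hg : ∀ (a : ℤ) (x : ℝ), 0 ≤ x → x ≤ a / N → Z * q x ≤ g a

variable {φ q : ℝ → ℝ} {K : ℝ} {f g : ℤ → ℤ} {N Z ka kb : ℤ}

theorem leaf_ok (D : Dat φ q K f g N Z ka kb) {x0 x1 s0 s1 : ℤ}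
    (h : leaf f g N Z ka kb x0 x1 s0 s1 = true) (p0 : 0 ≤ x0) {x S : ℝ} (a0 : x0 / N ≤ x)
    (a1 : x ≤ x1 / N) (b0 : s0 / N ≤ S) (b1 : S ≤ s1 / N) (hx : x ≤ 1) (hS : S ^ 2 ≤ 1) :
    Pt φ q K x S := by
  intro B W hB w1 w2
  have n0 : (0 : ℝ) < N := by exact_mod_cast D.n0
  have z0 : (0 : ℝ) < Z := by exact_mod_cast D.z0
  have p0' : (0 : ℝ) ≤ x0 := by exact_mod_cast p0
  have x0' : 0 ≤ x := (div_nonneg p0' n0.le).trans a0
  unfold leaf at h
  have hm : ((min (s0 * x1) (s0 * x0) / N : ℤ) : ℝ) / N ≤ S * x := by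
    have k := fl (min (s0 * x1) (s0 * x0)) D.n0
    have k1 : ((min (s0 * x1) (s0 * x0) : ℤ) : ℝ) / N / N ≤ s0 / N * x := by
      rcases le_total 0 (s0 / N : ℝ) with c | c
      · refine le_trans ?_ (mul_le_mul_of_nonneg_left a0 c)
        rw [div_mul_div_comm, div_div]
        exact div_le_div_of_nonneg_right (by exact_mod_cast min_le_right _ _) (by positivity)
      · refine le_trans ?_ (mul_le_mul_of_nonpos_left a1 c)
        rw [div_mul_div_comm, div_div]
        exact div_le_div_of_nonneg_right (by exact_mod_cast min_le_left _ _) (by positivity)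
    exact ((div_le_div_of_nonneg_right k n0.le).trans k1).trans
      (mul_le_mul_of_nonneg_right b0 x0')
  have hs : (sq2 s0 s1 : ℝ) ≤ S ^ 2 * N ^ 2 := by
    rw [div_le_iff₀ n0] at b0
    rw [le_div_iff₀ n0] at b1
    unfold sq2
    split_ifs with c1 c2
    · have : (0 : ℝ) ≤ s0 := by exact_mod_cast c1
      push_cast
      nlinarith
    · have : (s1 : ℝ) ≤ 0 := by exact_mod_cast c2
      push_cast
      nlinarith
    · push_cast
      positivity
  have hu := D.hg x1 x x0' a1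
  generalize min (s0 * x1) (s0 * x0) / N = m at h hm
  generalize g x1 = u at h hu
  generalize -bis _ 11 (-N) 0 = b at h
  unfold tsb at h
  generalize bis _ 9 (-N) b = t at h
  simp only [Bool.and_eq_true, decide_eq_true_eq] at h
  obtain ⟨⟨c1, c2⟩, h⟩ := h
  have hb : B ≤ b / N := by
    have c1' : (0 : ℝ) ≤ b := by exact_mod_cast c1
    have c2' : ((N : ℝ) ^ 2 - sq2 s0 s1) * (N ^ 2 - x0 ^ 2) ≤ b ^ 2 * N ^ 2 := by exact_mod_cast c2
    rw [div_le_iff₀ n0] at a0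
    have e1 : (x0 : ℝ) ^ 2 ≤ x ^ 2 * N ^ 2 := by nlinarith
    have e2 : 0 ≤ (1 - x ^ 2) * N ^ 2 := mul_nonneg (by nlinarith) (sq_nonneg _)
    have e3 : 0 ≤ (1 - S ^ 2) * N ^ 2 := mul_nonneg (by linarith) (sq_nonneg _)
    have e4 := mul_le_mul (show (1 - S ^ 2) * N ^ 2 ≤ N ^ 2 - sq2 s0 s1 by linarith)
      (show (1 - x ^ 2) * N ^ 2 ≤ N ^ 2 - x0 ^ 2 by linarith) e2 (by linarith)
    have e5 := mul_le_mul_of_nonneg_right hB (show (0 : ℝ) ≤ N ^ 2 * N ^ 2 by positivity)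
    rw [le_div_iff₀ n0]
    refine le_of_sq_le_sq (le_of_mul_le_mul_right ?_ (pow_pos n0 2)) c1'
    nlinarith
  have T2 : ∀ r : ℤ, B ≤ r / N → s1 < N →
      f (r - m) ≤ ll Z 9 (ka * (N - s1)) (kb * N) + f x0 - u → q x ≤ W - φ (B - S * x) :=
    fun r hr c3 c4 => by
    have c3' : (s1 : ℝ) < N := by exact_mod_cast c3
    have s1' : (s1 : ℝ) / N < 1 := (div_lt_one n0).2 c3'
    have l := ll_le D.z0 9 (ka * (N - s1)) (kb * N) (mul_pos D.a0 (by omega)) (mul_pos D.b0 D.n0)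
    have ka0 : (0 : ℝ) < ka := by exact_mod_cast D.a0
    have kb0 : (0 : ℝ) < kb := by exact_mod_cast D.b0
    have e : ((ka * (N - s1) : ℤ) : ℝ) / ((kb * N : ℤ) : ℝ) = K * (1 - s1 / N) := by
      rw [D.hK]
      push_cast
      field_simp
    have K0 : 0 < K := D.hK ▸ div_pos ka0 kb0
    have l2 := log_le_log (mul_pos K0 (sub_pos.2 s1'))
      (mul_le_mul_of_nonneg_left (sub_le_sub_left b1 1) K0.le)
    have c4' : (f (r - m) : ℝ) ≤ ll Z 9 (ka * (N - s1)) (kb * N) + f x0 - u := by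
      exact_mod_cast c4
    rw [e] at l
    rw [D.hf, D.hf] at c4'
    have m1 := D.mono a0
    have m2 := D.mono (show B - S * x ≤ ((r - m : ℤ) : ℝ) / N by
      push_cast
      rw [sub_div]
      linarith)
    have w3 := w2 (b1.trans_lt s1')
    refine le_of_mul_le_mul_left ?_ z0
    nlinarith [mul_le_mul_of_nonneg_left (show log (K * (1 - s1 / N)) + φ (x0 / N) -
      φ (((r - m : ℤ) : ℝ) / N) ≤ W - φ (B - S * x) by linarith) z0.le]
  have T1 : ∀ r : ℤ, φ (r / N + m / N) - φ (r / N - m / N) ≤ φ (B + m / N) - φ (B - m / N) →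
      u ≤ f (r + m) - f (r - m) → q x ≤ W - φ (B - S * x) := fun r c3 c4 => by
    have c4' : (u : ℝ) ≤ f (r + m) - f (r - m) := by exact_mod_cast c4
    rw [D.hf, D.hf] at c4'
    push_cast at c4'
    rw [add_div, sub_div] at c4'
    have m1 := D.mono (add_le_add_right hm B)
    have m2 := D.mono (sub_le_sub_left hm B)
    refine le_of_mul_le_mul_left ?_ z0
    nlinarith [mul_le_mul_of_nonneg_left (show φ (r / N + m / N) - φ (r / N - m / N) ≤
      W - φ (B - S * x) by linarith) z0.le]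
  unfold tst at h
  simp only [Bool.or_eq_true, Bool.and_eq_true, decide_eq_true_eq] at h
  rcases h with ⟨c3, c4⟩ | h
  · exact T2 b hb c3 c4
  split_ifs at h with c5
  · have m0 : (0 : ℝ) ≤ m / N := div_nonneg (by exact_mod_cast c5) n0.le
    have k := D.conc (B - m / N) (b / N - m / N) (2 * (m / N)) (by linarith) (by linarith)
    refine T1 b ?_ (by simpa using h)
    rwa [show (b : ℝ) / N - m / N + 2 * (m / N) = b / N + m / N by ring,
      show B - m / N + 2 * (m / N) = B + m / N by ring] at k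
  · simp only [Bool.and_eq_true, decide_eq_true_eq] at h
    obtain ⟨⟨c3, c4⟩, c6⟩ := h
    rcases le_total B (t / N) with c7 | c7
    · exact T2 t c7 c3 c4
    have m0 : (m : ℝ) / N ≤ 0 :=
      div_nonpos_of_nonpos_of_nonneg (by exact_mod_cast (not_le.1 c5).le) n0.le
    have k := D.conc (t / N + m / N) (B + m / N) (-2 * (m / N)) (by linarith) (by linarith)
    refine T1 t ?_ c6
    rw [show (t : ℝ) / N + m / N + -2 * (m / N) = t / N - m / N by ring,
      show B + m / N + -2 * (m / N) = B - m / N by ring] at k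
    linarith

theorem chk_ok (D : Dat φ q K f g N Z ka kb) (n : ℕ) : ∀ x0 x1 s0 s1 : ℤ,
    chk f g N Z ka kb n x0 x1 s0 s1 = true → 0 ≤ x0 → x0 ≤ x1 → ∀ x S : ℝ, x0 / N ≤ x →
      x ≤ x1 / N → s0 / N ≤ S → S ≤ s1 / N → x ≤ 1 → S ^ 2 ≤ 1 → Pt φ q K x S := by
  induction n with
  | zero => intro _ _ _ _ h; simp [chk] at h
  | succ n ih =>
    intro x0 x1 s0 s1 h p0 p1 x S a0 a1 b0 b1 hx hS
    rw [chk, Bool.or_eq_true] at h
    rcases h with h | h
    · exact leaf_ok D h p0 a0 a1 b0 b1 hx hS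
    split_ifs at h
    · rw [Bool.and_eq_true] at h
      rcases le_total x ((((x0 + x1) / 2 : ℤ) : ℝ) / N) with c | c
      · exact ih _ _ _ _ h.1 p0 (by omega) x S a0 c b0 b1 hx hS
      · exact ih _ _ _ _ h.2 (by omega) (by omega) x S c a1 b0 b1 hx hS
    · rw [Bool.and_eq_true] at h
      rcases le_total S ((((s0 + s1) / 2 : ℤ) : ℝ) / N) with c | c
      · exact ih _ _ _ _ h.1 p0 p1 x S a0 a1 b0 c hx hS
      · exact ih _ _ _ _ h.2 p0 p1 x S a0 a1 c b1 hx hS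

end Pool.Agent.MP_3ee8cb_gt.D8C
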